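import Pool.Agent.C2.Stmts

/-!
# Squad C2M, row DIV: divisibility by q^5
-/

set_option autoImplicit false

namespace Pool.Agent.C2.H47

open Pool.Agent.C2 Finset

/-- the kernel of B as a subspace -/
theorem kB_eq_pow {F : Type} [Field F] [Fintype F] {X : Type} [Fintype X] (B : Matrix X X F) :
    kB B = Fintype.card F ^ Module.finrank F (LinearMap.ker (Matrix.mulVecLin B)) := by
  classical
  have h1 : kB B = Nat.card (LinearMap.ker (Matrix.mulVecLin B)) := by
    unfold kB
    apply Nat.card_congr
    apply Equiv.subtypeEquivRight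
    intro u
    rw [LinearMap.mem_ker, Matrix.mulVecLin_apply]
    constructor
    · intro h
      funext x
      exact h x
    · intro h x
      exact congrFun h x
  rw [h1, Module.natCard_eq_pow_finrank (K := F), Nat.card_eq_fintype_card]

open Classical in
/-- the number of the kernel vectors without zeros at the vertices o j, if the kernel is a line -/
theorem kO_of_line {F : Type} [Field F] [Fintype F] {X J : Type} [Fintype X]
    (B : Matrix X X F) (o : J → X) (k : X → F) (j0 : J)
    (hk : ∀ x, ∑ y, B x y * k y = 0)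
    (hline : ∀ u : X → F, (∀ x, ∑ y, B x y * u y = 0) → ∃ c : F, u = fun x => c * k x) :
    (kO B o : ℤ) = ((Fintype.card F : ℤ) - 1) * (if ∀ j, k (o j) ≠ 0 then 1 else 0) := by
  by_cases h : ∀ j, k (o j) ≠ 0
  · rw [if_pos h, mul_one]
    have h1 : kO B o = Nat.card {a : F // a ≠ 0} := by
      unfold kO
      symm
      apply Nat.card_congr
      refine Equiv.ofBijective (fun a => ⟨fun x => a.1 * k x, ?_, ?_⟩) ⟨?_, ?_⟩
      · intro x
        have : ∑ y, B x y * (a.1 * k y) = a.1 * ∑ y, B x y * k y := by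
          rw [Finset.mul_sum]
          apply Finset.sum_congr rfl
          intro y _
          ring
        rw [this, hk x, mul_zero]
      · intro j
        exact mul_ne_zero a.2 (h j)
      · intro a a' haa
        have h2 := congrArg (fun z => z.1 (o j0)) haa
        exact Subtype.ext (mul_right_cancel₀ (h j0) h2)
      · rintro ⟨u, hu1, hu2⟩
        obtain ⟨c, hc⟩ := hline u hu1
        refine ⟨⟨c, ?_⟩, ?_⟩
        · rintro rfl
          apply hu2 j0
          rw [hc]
          simp
        · apply Subtype.ext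
          exact hc.symm
    have h2 : Nat.card {a : F // a ≠ 0} = Fintype.card F - 1 := by
      rw [← Nat.card_congr (unitsEquivNeZero (G₀ := F)), Nat.card_eq_fintype_card,
        Fintype.card_units]
    rw [h1, h2]
    have h3 : 1 ≤ Fintype.card F := Fintype.card_pos
    push_cast [Nat.cast_sub h3]
    ring
  · rw [if_neg h, mul_zero]
    push Not at h
    obtain ⟨j, hj⟩ := h
    have h1 : kO B o = 0 := by
      unfold kO
      have : IsEmpty {u : X → F // (∀ x, ∑ y, B x y * u y = 0) ∧ ∀ j, u (o j) ≠ 0} := by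
        constructor
        rintro ⟨u, hu1, hu2⟩
        obtain ⟨c, hc⟩ := hline u hu1
        apply hu2 j
        rw [hc]
        simp only
        rw [hj, mul_zero]
      exact Nat.card_of_isEmpty
    rw [h1]
    norm_num

theorem div (hA : AbtStmt) : DivStmt := by
  intro F _ _ _ X J _ _ _ _ o B k hB hJ hk hk0
  have hsum := hA F X J o B k hB hJ hk
  rw [hsum]
  set q : ℤ := (Fintype.card F : ℤ) with hq
  have hkB := kB_eq_pow B
  set c := Module.finrank F (LinearMap.ker (Matrix.mulVecLin B)) with hc
  have hmem : ∀ u : X → F, (∀ x, ∑ y, B x y * u y = 0) ↔ u ∈ LinearMap.ker (Matrix.mulVecLin B) := by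
    intro u
    rw [LinearMap.mem_ker, Matrix.mulVecLin_apply]
    constructor
    · intro h
      funext x
      exact h x
    · intro h x
      exact congrFun h x
  have hkm : k ∈ LinearMap.ker (Matrix.mulVecLin B) := (hmem k).mp hk
  have hne : (⟨k, hkm⟩ : LinearMap.ker (Matrix.mulVecLin B)) ≠ 0 := by
    intro h
    exact hk0 (congrArg Subtype.val h)
  have hc1 : 1 ≤ c := Module.finrank_pos_iff_exists_ne_zero.mpr ⟨_, hne⟩
  have hkBz : (kB B : ℤ) = q ^ c := by
    rw [hkB, hq]
    push_cast
    rfl
  obtain ⟨j0⟩ : Nonempty J := by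
    rw [← Fintype.card_pos_iff, hJ]
    norm_num
  rcases Nat.lt_or_ge 1 c with h2 | h2
  · -- c ≥ 2
    obtain ⟨m, hm⟩ := Nat.exists_eq_add_of_le (show 2 ≤ c from h2)
    rw [hkBz, hm]
    apply dvd_add
    · refine ⟨(q - 1) * q ^ (1 + 2 * m) * (if ∀ j, k (o j) ≠ 0 then 1 else 0), ?_⟩
      ring
    · refine ⟨(q ^ 2 - 1) * (q + 1) * q ^ m * (kO B o : ℤ), ?_⟩
      ring
  · -- c = 1
    have hc' : c = 1 := le_antisymm h2 hc1
    have hline : ∀ u : X → F, (∀ x, ∑ y, B x y * u y = 0) → ∃ c : F, u = fun x => c * k x := by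
      intro u hu
      have h3 := (finrank_eq_one_iff_of_nonzero' (⟨k, hkm⟩ : LinearMap.ker (Matrix.mulVecLin B)) hne).mp
        (hc ▸ hc') ⟨u, (hmem u).mp hu⟩
      obtain ⟨a, ha⟩ := h3
      refine ⟨a, ?_⟩
      have h4 := congrArg Subtype.val ha
      funext x
      have h5 := congrFun h4 x
      exact h5.symm
    have hkO := kO_of_line B o k j0 hk hline
    rw [hkBz, hc', hkO, ← hq]
    refine ⟨(q - 1) * (q ^ 2 + q - 1) * (if ∀ j, k (o j) ≠ 0 then 1 else 0), ?_⟩
    ring

end Pool.Agent.C2.H47
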